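import Pool.Agent.KS6_61.BQ.Upper2
import Pool.Agent.KS6_61.BQ.Lower

/-!
# MP_4d84d8_co: bicliques versus dense induced `C_4`-free subgraphs, explicit exponents

`Admissible H C` says that the dichotomy of Q1 holds for `H` with the exponent `C`. The main
theorem: for every finite bipartite graph `H` the exponent `1000 * |H| ^ 2` is admissible, and for
`H = K_{t,t}` every admissible exponent `C ≥ 0` satisfies `t < 14 * C + 10`. So the answer to Q1
is yes, the optimal exponent is at most quadratic in the number of vertices of `H`, and a bound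
growing more slowly than linearly is impossible.

* `Upper.lean`, `Upper2.lean`: the parameters of the earlier existence proof are bounded explicitly.
* `Count.lean`: a random graph of density `1 / t` on `t ^ a` vertices, `a = (t - 1) / 2`, has no two
  completely joined disjoint `t`-sets and no two disjoint `t ^ 3`-sets without an edge.
* `Lower.lean`: in such a graph the average degree is at least `t ^ (a - 4)` and every set of
  `2 t ^ 6 + 2 t ^ 3` vertices spans a 4-cycle.
-/

set_option autoImplicit false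

namespace Pool.Agent.Results.MP_4d84d8_co.QuadraticExponent

open SimpleGraph
open Pool.Agent.Results.MP_4d84d8_co.BicliqueOrC4Free (avgDeg)

/-- `C` is an admissible exponent for `H`: for every `s ≥ 1`, every finite graph `G` (with at least
one vertex) without an induced copy of `H` and with average degree at least `s ^ C` contains
`K_{s,s}` as a subgraph or has a nonempty induced subgraph without 4-cycles and of average degree
at least `s`. Here `avgDeg G = 2 e(G) / v(G)`. -/
def Admissible {W : Type} (H : SimpleGraph W) (C : ℝ) : Prop :=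
  ∀ s : ℕ, 1 ≤ s → ∀ (V : Type) [Finite V] [Nonempty V] (G : SimpleGraph V),
    ¬ H ⊴ G → (s : ℝ) ^ C ≤ avgDeg G →
      completeBipartiteGraph (Fin s) (Fin s) ⊑ G ∨
      ∃ X : Set V, X.Nonempty ∧ (cycleGraph 4).Free (G.induce X) ∧
        (s : ℝ) ≤ avgDeg (G.induce X)

/-- every admissible exponent of `K_{t,t}` is at least linear in `t` -/
lemma lower (t : ℕ) (C : ℝ) (hC : 0 ≤ C)
    (h : Admissible (completeBipartiteGraph (Fin t) (Fin t)) C) : (t : ℝ) < 14 * C + 10 := by
  classical
  by_contra hcon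
  push Not at hcon
  have ht : 10 ≤ t := by
    have : (10 : ℝ) ≤ t := by linarith
    exact_mod_cast this
  obtain ⟨c, a, hc, ha1, ha2⟩ : ∃ c a : ℕ, a = c + 4 ∧ 2 * a + 1 ≤ t ∧ t ≤ 2 * a + 2 :=
    ⟨(t - 1) / 2 - 4, (t - 1) / 2, by omega, by omega, by omega⟩
  obtain ⟨G, hN, hE⟩ := KS6_61.BQ.exists_graph t a (by omega) ha1
  have htpos : 0 < t := by omega
  have hb : 1 ≤ t ^ c := Nat.one_le_pow _ _ htpos
  have hta : t ^ a = t ^ 4 * t ^ c := by rw [hc, ← pow_add]; congr 1; ring
  have hne : Nonempty (Fin (t ^ a)) := ⟨⟨0, by positivity⟩⟩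
  -- the average degree
  have hD : 2 ≤ t * t ^ c := by nlinarith
  have hdeg := KS6_61.BQ.avgDeg_lower (G := G) (k := t ^ 3) (t * t ^ c - 2)
    (Nat.one_le_pow _ _ htpos) hE (by
      rw [Fintype.card_fin, hta]
      obtain ⟨D, hD'⟩ : ∃ D, t * t ^ c = D + 2 := ⟨t * t ^ c - 2, by omega⟩
      have : t ^ 4 * t ^ c = t ^ 3 * (t * t ^ c) := by ring
      rw [this, hD', Nat.add_sub_cancel]
      exact le_of_eq (by ring))
  rw [Fintype.card_fin] at hdeg
  have hkn : t ^ 3 ≤ t ^ a := Nat.pow_le_pow_right htpos (by omega)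
  have hdeg2 : ((t : ℝ) ^ c) ≤ avgDeg G := by
    rw [Nat.cast_sub hkn, Nat.cast_sub hD] at hdeg
    push_cast at hdeg
    have e1 : (t : ℝ) ^ a = (t : ℝ) ^ 4 * (t : ℝ) ^ c := by exact_mod_cast hta
    rw [e1] at hdeg
    have hT : (10 : ℝ) ≤ t := by exact_mod_cast ht
    have hB : (1 : ℝ) ≤ (t : ℝ) ^ c := by exact_mod_cast hb
    generalize (t : ℝ) ^ c = b at hdeg hB ⊢
    generalize (t : ℝ) = T at hdeg hT ⊢
    have hpos : 0 < T ^ 4 * b := by positivity
    have key : b * (T ^ 4 * b) ≤ (T ^ 4 * b - T ^ 3) * (T * b - 2) := by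
      have h1 : (T ^ 4 * b - T ^ 3) * (T * b - 2) - b * (T ^ 4 * b) =
          T ^ 4 * b * ((T - 1) * b - 3) + 2 * T ^ 3 := by ring
      have h2 : 0 ≤ (T - 1) * b - 3 := by nlinarith
      have h3 : 0 ≤ T ^ 4 * b * ((T - 1) * b - 3) := mul_nonneg hpos.le h2
      have h4 : 0 ≤ 2 * T ^ 3 := by positivity
      linarith
    exact le_of_mul_le_mul_right (key.trans hdeg) hpos
  -- apply the dichotomy with `s = t ^ 7`
  have hs : ((t ^ 7 : ℕ) : ℝ) ^ C ≤ avgDeg G := by
    refine le_trans ?_ hdeg2
    have hT : (1 : ℝ) ≤ t := by exact_mod_cast htpos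
    have e1 : ((t ^ 7 : ℕ) : ℝ) ^ C = (t : ℝ) ^ (7 * C) := by
      rw [Nat.cast_pow, ← Real.rpow_natCast, ← Real.rpow_mul (Nat.cast_nonneg t)]
      norm_num
    rw [e1, ← Real.rpow_natCast (t : ℝ) c]
    apply Real.rpow_le_rpow_of_exponent_le hT
    have h1 : (t : ℝ) ≤ 2 * a + 2 := by exact_mod_cast ha2
    have h2 : (a : ℝ) = c + 4 := by exact_mod_cast hc
    linarith
  have hfree : ¬ completeBipartiteGraph (Fin t) (Fin t) ⊴ G := fun hi =>
    KS6_61.BQ.no_biclique hN t le_rfl hi.isContained
  rcases h (t ^ 7) (Nat.one_le_pow _ _ htpos) (Fin (t ^ a)) G hfree hs with h1 | ⟨X, hXne, hX4, hX⟩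
  · exact KS6_61.BQ.no_biclique hN (t ^ 7)
      (by calc t = t ^ 1 := (pow_one t).symm
            _ ≤ t ^ 7 := Nat.pow_le_pow_right htpos (by norm_num)) h1
  · have : Nonempty X := hXne.to_subtype
    have h2 := KS6_61.BQ.avgDeg_lt_card (G.induce X)
    have h3 : t ^ 7 < X.toFinset.card := by
      have h4 : ((t ^ 7 : ℕ) : ℝ) < (Nat.card X : ℝ) := lt_of_le_of_lt hX h2
      have h5 : Nat.card X = X.toFinset.card := by
        rw [Nat.card_eq_fintype_card, Set.toFinset_card]
      rw [h5] at h4
      exact_mod_cast h4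
    have h6 : 2 * t ^ 3 * t ^ 3 + 2 * t ^ 3 ≤ X.toFinset.card := by
      have h7 : 2 * t ^ 3 * t ^ 3 + 2 * t ^ 3 ≤ t ^ 7 := by
        have e : t ^ 7 = t * t ^ 3 * t ^ 3 := by ring
        rw [e]
        have h8 : 1 ≤ t ^ 3 := Nat.one_le_pow _ _ htpos
        have h9 : 2 * t ^ 3 ≤ 2 * t ^ 3 * t ^ 3 := Nat.le_mul_of_pos_right _ h8
        have h10 : 4 * t ^ 3 * t ^ 3 ≤ t * t ^ 3 * t ^ 3 := by gcongr; omega
        have h11 : 4 * t ^ 3 * t ^ 3 = 2 * t ^ 3 * t ^ 3 + 2 * t ^ 3 * t ^ 3 := by ring
        omega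
      omega
    obtain ⟨v, hv, x, hx, u, hu, y, hy, hvu, hxy, a1, a2, a3, a4⟩ :=
      KS6_61.BQ.exists_C4 (G := G) (k := t ^ 3)
        (by calc 2 ≤ t := by omega
              _ = t ^ 1 := (pow_one t).symm
              _ ≤ t ^ 3 := Nat.pow_le_pow_right htpos (by norm_num)) hE X.toFinset h6
    rw [Set.mem_toFinset] at hv hx hu hy
    apply hX4
    have nvx : v ≠ x := a1.ne
    have nxu : x ≠ u := a2.ne
    have nuy : u ≠ y := a3.ne
    have nyv : y ≠ v := a4.ne
    refine ⟨⟨⟨![⟨v, hv⟩, ⟨x, hx⟩, ⟨u, hu⟩, ⟨y, hy⟩], ?_⟩, ?_⟩⟩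
    · intro i j hij
      fin_cases i <;> fin_cases j
      · exact absurd hij (by decide)
      · exact a1
      · exact absurd hij (by decide)
      · exact a4.symm
      · exact a1.symm
      · exact absurd hij (by decide)
      · exact a2
      · exact absurd hij (by decide)
      · exact absurd hij (by decide)
      · exact a2.symm
      · exact absurd hij (by decide)
      · exact a3
      · exact a4
      · exact absurd hij (by decide)
      · exact a3.symm
      · exact absurd hij (by decide)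
    · intro i j hij
      have hij' := congrArg Subtype.val hij
      fin_cases i <;> fin_cases j
      · rfl
      · exact absurd hij' nvx
      · exact absurd hij' hvu
      · exact absurd hij' nyv.symm
      · exact absurd hij' nvx.symm
      · rfl
      · exact absurd hij' nxu
      · exact absurd hij' hxy
      · exact absurd hij' hvu.symm
      · exact absurd hij' nxu.symm
      · rfl
      · exact absurd hij' nuy
      · exact absurd hij' nyv
      · exact absurd hij' hxy.symm
      · exact absurd hij' nuy.symm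
      · rfl

/-- For every finite bipartite graph `H` the dichotomy of Q1 holds with the exponent
`1000 * |H| ^ 2`; and every exponent `C ≥ 0` for which it holds with `H = K_{t,t}` satisfies
`t < 14 * C + 10`. -/
theorem result :
    (∀ (W : Type) [Finite W] (H : SimpleGraph W), H.IsBipartite →
      Admissible H (1000 * (Nat.card W : ℝ) ^ 2)) ∧
    (∀ (t : ℕ) (C : ℝ), 0 ≤ C → Admissible (completeBipartiteGraph (Fin t) (Fin t)) C →
      (t : ℝ) < 14 * C + 10) := by
  refine ⟨?_, lower⟩
  intro W _ H hH s hs V _ _ G hfree hdeg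
  refine KS6_61.BQ.upper H hH s hs V G hfree ?_
  have h1 : (1000 * (Nat.card W : ℝ) ^ 2) = ((1000 * Nat.card W ^ 2 : ℕ) : ℝ) := by
    push_cast
    rfl
  rw [h1, Real.rpow_natCast] at hdeg
  exact hdeg

end Pool.Agent.Results.MP_4d84d8_co.QuadraticExponent
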